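import Pool.Agent.Helper13.UK.V

/-! Conversion between sets of double points and sets of passages. -/

set_option autoImplicit false
open Classical
namespace Pool.Agent.Helper50.UK
variable {n : ℕ}

namespace Code
variable (S : Code n)

theorem mate_pass_symm (v : Fin n) (b : Bool) :
    S.mate (S.pass.symm (v, b)) = S.pass.symm (v, !b) := by
  simp [mate]

theorem eq_pass_symm (q : ZMod (2 * n)) : q = S.pass.symm ((S.pass q).1, (S.pass q).2) := by
  simp

theorem nc_iff [NeZero n] (a c : ZMod (2 * n)) :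
    (S.sd a c ↔ S.sd a (S.mate c)) ↔ ¬ S.Cross (S.pass a).1 (S.pass c).1 := by
  have key : ∀ (v w : Fin n) (b b' : Bool), (S.sd (S.pass.symm (v, b)) (S.pass.symm (w, b')) ↔
      S.sd (S.pass.symm (v, b)) (S.mate (S.pass.symm (w, b')))) ↔ ¬ S.Cross v w := by
    intro v w b b'
    have h1 : ∀ z, S.sd (S.pass.symm (v, false)) z ↔ ¬ S.sd (S.pass.symm (v, true)) z := by
      intro z
      have h2 := S.mate_pass_symm v true
      rw [Bool.not_true] at h2
      rw [← h2]
      exact S.sd_mate _ z
    unfold Cross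
    rw [S.mate_pass_symm]
    cases b <;> cases b' <;> simp only [h1, Bool.not_true, Bool.not_false] <;> tauto
  have h := key (S.pass a).1 (S.pass c).1 (S.pass a).2 (S.pass c).2
  rwa [← S.eq_pass_symm a, ← S.eq_pass_symm c] at h

theorem cross_comm [NeZero n] {v w : Fin n} (h : v ≠ w) : S.Cross v w ↔ S.Cross w v := by
  have h1 := S.nc_iff (S.pass.symm (v, true)) (S.pass.symm (w, true))
  have h2 := S.nc_iff (S.pass.symm (w, true)) (S.pass.symm (v, true))
  rw [Equiv.apply_symm_apply, Equiv.apply_symm_apply] at h1 h2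
  have h3 : S.pass.symm (w, true) ≠ S.pass.symm (v, true) := by
    intro h4
    have h5 := S.pass.symm.injective h4
    exact h (congrArg Prod.fst h5).symm
  have h4 : S.pass.symm (w, true) ≠ S.mate (S.pass.symm (v, true)) := by
    intro h4
    rw [S.mate_pass_symm] at h4
    have h5 := S.pass.symm.injective h4
    exact h (congrArg Prod.fst h5).symm
  have h5 := S.cross_symm h3 h4
  rw [h1, h2] at h5
  exact not_iff_not.1 h5

/-- (a) -/
theorem MaxNonCrossing.maxNC [NeZero n] {V₀ : Finset (Fin n)} (h : S.MaxNonCrossing V₀) :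
    S.MaxNC {q | (S.pass q).1 ∈ V₀} := by
  refine ⟨⟨?_, ?_⟩, ?_⟩
  · intro q
    show (S.pass (S.mate q)).1 ∈ V₀ ↔ (S.pass q).1 ∈ V₀
    rw [S.pass_mate]
  · intro a ha c hc h1 h2
    rw [S.nc_iff]
    refine h.nonCrossing _ ha _ hc fun h3 => ?_
    have e1 := S.eq_pass_symm a
    have e2 := S.eq_pass_symm c
    by_cases hb : (S.pass c).2 = (S.pass a).2
    · apply h1
      rw [e2, e1, ← h3, hb]
    · apply h2
      rw [e2, mate, ← h3]
      congr 2
      revert hb
      cases (S.pass c).2 <;> cases (S.pass a).2 <;> simp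
  · intro c hc
    obtain ⟨v, hv, hvc⟩ := h.maximal _ hc
    refine ⟨S.pass.symm (v, true), ?_, ?_⟩
    · show (S.pass (S.pass.symm (v, true))).1 ∈ V₀
      rw [Equiv.apply_symm_apply]
      exact hv
    · rw [S.nc_iff, Equiv.apply_symm_apply, not_not]
      exact hvc

/-- (b) -/
theorem card_passages (V₀ : Finset (Fin n)) :
    Nat.card {q | (S.pass q).1 ∈ V₀} = 2 * V₀.card := by
  have e : {q : ZMod (2 * n) | (S.pass q).1 ∈ V₀} ≃ V₀ × Bool :=
    { toFun := fun q => (⟨(S.pass q.1).1, q.2⟩, (S.pass q.1).2)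
      invFun := fun x => ⟨S.pass.symm (x.1.1, x.2), by
        show (S.pass (S.pass.symm (x.1.1, x.2))).1 ∈ V₀
        rw [Equiv.apply_symm_apply]
        exact x.1.2⟩
      left_inv := fun q => Subtype.ext (by simp)
      right_inv := fun x => by
        refine Prod.ext (Subtype.ext ?_) ?_
        · show (S.pass (S.pass.symm (x.1.1, x.2))).1 = x.1.1
          rw [Equiv.apply_symm_apply]
        · show (S.pass (S.pass.symm (x.1.1, x.2))).2 = x.2
          rw [Equiv.apply_symm_apply] }
  rw [Nat.card_congr e, Nat.card_prod, Nat.card_eq_fintype_card, Nat.card_eq_fintype_card,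
    Fintype.card_coe, Fintype.card_bool, mul_comm]

theorem card_filter_passages [NeZero n] (V₀ : Finset (Fin n)) :
    (Finset.univ.filter fun q : ZMod (2 * n) => (S.pass q).1 ∈ V₀).card = 2 * V₀.card := by
  rw [← S.card_passages V₀, ← Fintype.card_subtype, ← Nat.card_eq_fintype_card]
  rfl

/-- (c) -/
theorem exists_maxNonCrossing [NeZero n] :
    ∃ V₀ : Finset (Fin n), S.MaxNonCrossing V₀ ∧ V₀.Nonempty := by
  obtain ⟨V, _, hmax⟩ := Finite.exists_le_maximal
    (p := fun V : Finset (Fin n) => ∀ v ∈ V, ∀ w ∈ V, v ≠ w → ¬ S.Cross v w)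
    (a := ∅) (fun v hv => absurd hv (Finset.notMem_empty v))
  have hM : S.MaxNonCrossing V := by
    refine ⟨hmax.prop, fun w hw => ?_⟩
    by_contra hcon
    push Not at hcon
    have h1 : ∀ v ∈ insert w V, ∀ u ∈ insert w V, v ≠ u → ¬ S.Cross v u := by
      intro v hv u hu hvu
      rw [Finset.mem_insert] at hv hu
      rcases hv with rfl | hv
      · rcases hu with rfl | hu
        · exact absurd rfl hvu
        · rw [S.cross_comm hvu]
          exact hcon u hu
      · rcases hu with rfl | hu
        · exact hcon v hv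
        · exact hmax.prop v hv u hu hvu
    have h2 := hmax.le_of_ge h1 (Finset.subset_insert w V)
    exact hw (h2 (Finset.mem_insert_self w V))
  refine ⟨V, hM, ?_⟩
  by_contra h
  rw [Finset.not_nonempty_iff_eq_empty] at h
  obtain ⟨v, hv, _⟩ := hM.maximal (0 : Fin n) (by rw [h]; exact Finset.notMem_empty _)
  rw [h] at hv
  exact Finset.notMem_empty _ hv

end Code
end Pool.Agent.Helper50.UK
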